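import Mathlib

open MeasureTheory Set Filter
open scoped ENNReal Topology

namespace Pool.Agent.H.MP_8ae060_pr

/-- Distribution function of a continuous positive integrable density. -/
lemma cdf_aux (u : ℝ → ℝ) (hu : Continuous u) (hu0 : ∀ x, 0 < u x) (hui : Integrable u) :
    ∃ F : ℝ → ℝ, (∀ x, HasDerivAt F (u x) x) ∧ StrictMono F ∧ Continuous F ∧
      (∀ x, 0 < F x) ∧ (∀ x, F x < ∫ t, u t) ∧
      (∀ c, 0 < c → c < ∫ t, u t → ∃ x, F x = c) := by
  set A : ℝ := ∫ t in Iic (0:ℝ), u t with hA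
  set F : ℝ → ℝ := fun x => A + ∫ t in (0:ℝ)..x, u t with hF
  have hii : ∀ a b : ℝ, IntervalIntegrable u volume a b := fun a b => hu.intervalIntegrable a b
  have hder : ∀ x, HasDerivAt F (u x) x := by
    intro x
    have := intervalIntegral.integral_hasDerivAt_right (hii 0 x)
      (hu.stronglyMeasurableAtFilter _ _) hu.continuousAt
    simpa [hF] using this.const_add A
  have hcont : Continuous F := continuous_iff_continuousAt.2 fun x => (hder x).continuousAt
  have hmono : StrictMono F := by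
    apply strictMono_of_deriv_pos
    intro x
    rw [(hder x).deriv]
    exact hu0 x
  have hbot : Tendsto F atBot (𝓝 0) := by
    have h1 : Tendsto (fun x : ℝ => ∫ t in x..(0:ℝ), u t) atBot (𝓝 (∫ t in Iic (0:ℝ), u t)) :=
      intervalIntegral_tendsto_integral_Iic 0 hui.integrableOn tendsto_id
    have h2 : F = fun x => A - ∫ t in x..(0:ℝ), u t := by
      funext x
      simp only [hF]
      rw [intervalIntegral.integral_symm x 0]
      ring
    rw [h2]
    have := h1.const_sub A
    simpa [hA] using this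
  have htop : Tendsto F atTop (𝓝 (∫ t, u t)) := by
    have h1 : Tendsto (fun x : ℝ => ∫ t in (0:ℝ)..x, u t) atTop (𝓝 (∫ t in Ioi (0:ℝ), u t)) :=
      intervalIntegral_tendsto_integral_Ioi 0 hui.integrableOn tendsto_id
    have h2 := h1.const_add A
    have h3 : A + ∫ t in Ioi (0:ℝ), u t = ∫ t, u t := by
      rw [hA]
      exact intervalIntegral.integral_Iic_add_Ioi hui.integrableOn hui.integrableOn
    rw [h3] at h2
    exact h2
  have hpos : ∀ x, 0 < F x := by
    intro x
    have h1 : F (x - 1) < F x := hmono (by linarith)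
    have h2 : 0 ≤ F (x - 1) := hmono.monotone.le_of_tendsto hbot _
    linarith
  have hlt : ∀ x, F x < ∫ t, u t := by
    intro x
    have h1 : F x < F (x + 1) := hmono (by linarith)
    have h2 : F (x + 1) ≤ ∫ t, u t := hmono.monotone.ge_of_tendsto htop _
    linarith
  refine ⟨F, hder, hmono, hcont, hpos, hlt, ?_⟩
  intro c hc0 hcI
  have e1 : ∃ a, F a ≤ c := by
    have := (hbot.eventually (gt_mem_nhds hc0)).exists
    obtain ⟨a, ha⟩ := this
    exact ⟨a, ha.le⟩
  have e2 : ∃ b, c ≤ F b := by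
    have := (htop.eventually (lt_mem_nhds hcI)).exists
    obtain ⟨a, ha⟩ := this
    exact ⟨a, ha.le⟩
  exact mem_range_of_exists_le_of_exists_ge hcont e1 e2

/-- Monotone transport between two continuous positive densities of the same mass. -/
lemma exists_transport (u v : ℝ → ℝ) (hu : Continuous u) (hv : Continuous v)
    (hu0 : ∀ x, 0 < u x) (hv0 : ∀ x, 0 < v x) (hui : Integrable u) (hvi : Integrable v)
    (h : ∫ x, u x = ∫ x, v x) :
    ∃ T : ℝ → ℝ, StrictMono T ∧ ∀ x, HasDerivAt T (u x / v (T x)) x := by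
  obtain ⟨F, hFd, hFm, hFc, hF0, hFI, hFs⟩ := cdf_aux u hu hu0 hui
  obtain ⟨G, hGd, hGm, hGc, hG0, hGI, hGs⟩ := cdf_aux v hv hv0 hvi
  have hex : ∀ x, ∃ t, G t = F x := fun x => hGs _ (hF0 x) (h ▸ hFI x)
  choose T hT using hex
  have hTm : StrictMono T := by
    intro x y hxy
    have : G (T x) < G (T y) := by rw [hT, hT]; exact hFm hxy
    exact hGm.lt_iff_lt.1 this
  have hTs : Function.Surjective T := by
    intro t
    obtain ⟨x, hx⟩ := hFs (G t) (hG0 t) (h.symm ▸ hGI t)
    refine ⟨x, ?_⟩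
    apply hGm.injective
    rw [hT, hx]
  have hTc : Continuous T := hTm.monotone.continuous_of_surjective hTs
  refine ⟨T, hTm, ?_⟩
  intro x
  rw [hasDerivAt_iff_tendsto_slope]
  have h1 : Tendsto (slope F x) (𝓝[≠] x) (𝓝 (u x)) := hasDerivAt_iff_tendsto_slope.1 (hFd x)
  have h2 : Tendsto (slope G (T x)) (𝓝[≠] (T x)) (𝓝 (v (T x))) :=
    hasDerivAt_iff_tendsto_slope.1 (hGd (T x))
  have h3 : Tendsto T (𝓝[≠] x) (𝓝[≠] (T x)) := by
    apply tendsto_nhdsWithin_of_tendsto_nhds_of_eventually_within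
    · exact (hTc.tendsto x).mono_left nhdsWithin_le_nhds
    · filter_upwards [self_mem_nhdsWithin] with y hy
      exact fun hh => hy (hTm.injective hh)
  have h4 := h1.div (h2.comp h3) (hv0 (T x)).ne'
  refine h4.congr' ?_
  filter_upwards [self_mem_nhdsWithin] with y hy
  have hy' : y ≠ x := hy
  have hTy : T y ≠ T x := fun hh => hy' (hTm.injective hh)
  have hGy : G (T y) - G (T x) ≠ 0 := sub_ne_zero.2 fun hh => hTy (hGm.injective hh)
  have hd1 : y - x ≠ 0 := sub_ne_zero.2 hy'
  have hd2 : T y - T x ≠ 0 := sub_ne_zero.2 hTy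
  simp only [Pi.div_apply, Function.comp_apply, slope_def_field]
  rw [← hT y, ← hT x]
  field_simp

end Pool.Agent.H.MP_8ae060_pr
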