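import Mathlib
import Pool.Agent.H.MP_8ae060_pr.Transport

open MeasureTheory Set Filter
open scoped ENNReal Topology

namespace Pool.Agent.H.MP_8ae060_pr

/-- The Gaussian reference density. -/
noncomputable def gam (t : ℝ) : ℝ := Real.exp (-t ^ 2) / √Real.pi

lemma gam_pos (t : ℝ) : 0 < gam t := by
  unfold gam; positivity

lemma gam_cont : Continuous gam := by
  unfold gam
  fun_prop

lemma gam_int : Integrable gam := by
  have := (integrable_exp_neg_mul_sq (b := 1) one_pos).div_const (√Real.pi)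
  have h2 : gam = fun t => Real.exp (-1 * t ^ 2) / √Real.pi := by
    funext t; simp [gam]
  rw [h2]; exact this

lemma gam_integral : ∫ t, gam t = 1 := by
  have h := integral_gaussian 1
  unfold gam
  rw [integral_div]
  have h' : ∫ t : ℝ, Real.exp (-t ^ 2) = √Real.pi := by simpa using h
  rw [h']
  have : 0 < √Real.pi := by positivity
  field_simp

/-- The algebraic AM-GM step. -/
lemma amgm (a b c : ℝ) (ha : 0 < a) (hb : 0 < b) (hc : 0 < c) :
    (a * b * c) ^ (2 / 3 : ℝ) ≤ (a * b + b * c + c * a) / 3 := by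
  have h := Real.geom_mean_le_arith_mean3_weighted (w₁ := 1/3) (w₂ := 1/3) (w₃ := 1/3)
    (p₁ := a * b) (p₂ := b * c) (p₃ := c * a) (by norm_num) (by norm_num) (by norm_num)
    (by positivity) (by positivity) (by positivity) (by norm_num)
  have e : (a * b) ^ (1/3 : ℝ) * (b * c) ^ (1/3 : ℝ) * (c * a) ^ (1/3 : ℝ)
      = (a * b * c) ^ (2 / 3 : ℝ) := by
    rw [← Real.mul_rpow (by positivity) (by positivity),
      ← Real.mul_rpow (by positivity) (by positivity)]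
    have : a * b * (b * c) * (c * a) = (a * b * c) ^ (2:ℝ) := by
      rw [Real.rpow_two]; ring
    rw [this, ← Real.rpow_mul (by positivity)]
    norm_num
  rw [e] at h
  linarith

/-- The Gaussian step. -/
lemma gauss_step (t₁ t₂ t₃ : ℝ) :
    (gam t₁ * gam t₂ * gam t₃) ^ (2 / 3 : ℝ) ≤
      Real.exp (-(4 / 3) * (((2 * t₁ - t₂ - t₃) / 3) ^ 2
        + ((2 * t₁ - t₂ - t₃) / 3) * ((2 * t₂ - t₁ - t₃) / 3)
        + ((2 * t₂ - t₁ - t₃) / 3) ^ 2)) / Real.pi := by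
  have hpi : 0 < Real.pi := Real.pi_pos
  have e1 : gam t₁ * gam t₂ * gam t₃ = Real.exp (-(t₁ ^ 2 + t₂ ^ 2 + t₃ ^ 2)) * (Real.pi ^ (-(3/2) : ℝ)) := by
    unfold gam
    have h1 : (√Real.pi)⁻¹ = Real.pi ^ (-(1/2) : ℝ) := by
      rw [Real.rpow_neg hpi.le, Real.sqrt_eq_rpow]
    have h2 : Real.pi ^ (-(3/2) : ℝ) = (√Real.pi)⁻¹ * (√Real.pi)⁻¹ * (√Real.pi)⁻¹ := by
      rw [h1, ← Real.rpow_add hpi, ← Real.rpow_add hpi]
      norm_num
    rw [h2]
    have h3 : Real.exp (-(t₁ ^ 2 + t₂ ^ 2 + t₃ ^ 2)) =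
        Real.exp (-t₁ ^ 2) * Real.exp (-t₂ ^ 2) * Real.exp (-t₃ ^ 2) := by
      rw [← Real.exp_add, ← Real.exp_add]; ring_nf
    rw [h3]
    field_simp
  rw [e1, Real.mul_rpow (Real.exp_pos _).le (Real.rpow_nonneg hpi.le _), ← Real.exp_mul,
    ← Real.rpow_mul hpi.le]
  have e2 : (-(3/2) : ℝ) * (2/3) = -1 := by norm_num
  rw [e2, Real.rpow_neg_one, ← div_eq_mul_inv]
  apply div_le_div_of_nonneg_right _ hpi.le
  apply Real.exp_le_exp.2
  nlinarith [sq_nonneg (t₁ + t₂ + t₃)]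

/-- The planar Gaussian integral. -/
lemma planar_gauss :
    ∫⁻ p : ℝ × ℝ, ENNReal.ofReal (Real.exp (-(4 / 3) * (p.1 ^ 2 + p.1 * p.2 + p.2 ^ 2)) / Real.pi)
      = ENNReal.ofReal (√3 / 2) := by
  have hpi : 0 < Real.pi := Real.pi_pos
  rw [Measure.volume_eq_prod, lintegral_prod_symm' _ (by fun_prop)]
  have hinner : ∀ y : ℝ, ∫⁻ x : ℝ, ENNReal.ofReal
      (Real.exp (-(4 / 3) * (x ^ 2 + x * y + y ^ 2)) / Real.pi)
      = ENNReal.ofReal (Real.exp (-1 * y ^ 2)) * ENNReal.ofReal (√(Real.pi / (4/3)) / Real.pi) := by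
    intro y
    have h1 : ∀ x : ℝ, Real.exp (-(4 / 3) * (x ^ 2 + x * y + y ^ 2)) / Real.pi
        = Real.exp (-1 * y ^ 2) * (Real.exp (-(4/3) * (x + y / 2) ^ 2) / Real.pi) := by
      intro x
      rw [← mul_div_assoc, ← Real.exp_add]
      congr 2
      ring
    simp_rw [h1]
    have h2 : ∀ x : ℝ, ENNReal.ofReal (Real.exp (-1 * y ^ 2) *
        (Real.exp (-(4/3) * (x + y / 2) ^ 2) / Real.pi))
        = ENNReal.ofReal (Real.exp (-1 * y ^ 2)) *
          ENNReal.ofReal (Real.exp (-(4/3) * (x + y / 2) ^ 2) / Real.pi) := by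
      intro x
      rw [ENNReal.ofReal_mul (Real.exp_pos _).le]
    simp_rw [h2]
    rw [lintegral_const_mul _ (by fun_prop)]
    congr 1
    rw [lintegral_add_right_eq_self (fun x => ENNReal.ofReal (Real.exp (-(4/3) * x ^ 2) / Real.pi))
      (y / 2)]
    rw [← ofReal_integral_eq_lintegral_ofReal]
    · rw [integral_div, integral_gaussian]
    · exact (integrable_exp_neg_mul_sq (by norm_num)).div_const _
    · exact Eventually.of_forall fun x => by positivity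
  simp_rw [hinner]
  rw [lintegral_mul_const _ (by fun_prop), ← ofReal_integral_eq_lintegral_ofReal
    (integrable_exp_neg_mul_sq (by norm_num)) (Eventually.of_forall fun x => by positivity),
    integral_gaussian, ← ENNReal.ofReal_mul (by positivity)]
  congr 1
  rw [div_one, Real.sqrt_div hpi.le, mul_div_assoc']
  have h3 : √(4 / 3 : ℝ) = 2 / √3 := by
    rw [Real.sqrt_div (by norm_num), show (4:ℝ) = 2 ^ 2 by norm_num,
      Real.sqrt_sq (by norm_num)]
  rw [h3]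
  have h4 : 0 < √(3:ℝ) := by positivity
  have h5 : √Real.pi * √Real.pi = Real.pi := Real.mul_self_sqrt hpi.le
  field_simp
  nlinarith

/-- Sharp Young inequality in the plane for a continuous positive density. -/
theorem young_cont (u : ℝ → ℝ) (hu : Continuous u) (hu0 : ∀ x, 0 < u x) (hui : Integrable u)
    (h1 : ∫ x, u x = 1) :
    ∫⁻ p : ℝ × ℝ, ENNReal.ofReal ((u p.1 * u p.2 * u (-p.1 - p.2)) ^ (2 / 3 : ℝ))
      ≤ ENNReal.ofReal (√3 / 2) := by
  obtain ⟨T, hTm, hT⟩ := exists_transport u gam hu gam_cont hu0 gam_pos hui gam_int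
    (by rw [h1, gam_integral])
  set T' : ℝ → ℝ := fun x => u x / gam (T x) with hT'
  have hT'0 : ∀ x, 0 < T' x := fun x => div_pos (hu0 x) (gam_pos _)
  have hu_eq : ∀ x, u x = gam (T x) * T' x := by
    intro x
    simp only [hT']
    have := (gam_pos (T x)).ne'
    field_simp
  set Θ : ℝ × ℝ → ℝ × ℝ := fun p =>
    ((2 * T p.1 - T p.2 - T (-p.1 - p.2)) / 3, (2 * T p.2 - T p.1 - T (-p.1 - p.2)) / 3) with hΘ
  set Θ' : ℝ × ℝ → (ℝ × ℝ →L[ℝ] ℝ × ℝ) := fun p =>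
    (Matrix.toLin (.finTwoProd ℝ) (.finTwoProd ℝ)
    !![(2 * T' p.1 + T' (-p.1 - p.2)) / 3, (T' (-p.1 - p.2) - T' p.2) / 3;
       (T' (-p.1 - p.2) - T' p.1) / 3, (2 * T' p.2 + T' (-p.1 - p.2)) / 3]).toContinuousLinearMap
    with hΘ'
  have hdet : ∀ p, (Θ' p).det =
      (T' p.1 * T' p.2 + T' p.2 * T' (-p.1 - p.2) + T' (-p.1 - p.2) * T' p.1) / 3 := by
    intro p
    simp only [hΘ', LinearMap.det_toContinuousLinearMap, LinearMap.det_toLin,
      Matrix.det_fin_two_of]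
    ring
  have hderiv : ∀ p, HasFDerivAt Θ (Θ' p) p := by
    intro p
    have a1 : HasFDerivAt (fun q : ℝ × ℝ => T q.1) (T' p.1 • ContinuousLinearMap.fst ℝ ℝ ℝ) p :=
      (hT p.1).comp_hasFDerivAt p hasFDerivAt_fst
    have a2 : HasFDerivAt (fun q : ℝ × ℝ => T q.2) (T' p.2 • ContinuousLinearMap.snd ℝ ℝ ℝ) p :=
      (hT p.2).comp_hasFDerivAt p hasFDerivAt_snd
    have a3 : HasFDerivAt (fun q : ℝ × ℝ => T (-q.1 - q.2))
        (T' (-p.1 - p.2) • (-ContinuousLinearMap.fst ℝ ℝ ℝ - ContinuousLinearMap.snd ℝ ℝ ℝ)) p :=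
      (hT (-p.1 - p.2)).comp_hasFDerivAt p (hasFDerivAt_fst.neg.sub hasFDerivAt_snd)
    have b := HasFDerivAt.prodMk
      ((((a1.const_mul 2).sub a2).sub a3).mul_const (1/3 : ℝ))
      ((((a2.const_mul 2).sub a1).sub a3).mul_const (1/3 : ℝ))
    have e1 : Θ = fun q : ℝ × ℝ => ((2 * T q.1 - T q.2 - T (-q.1 - q.2)) * (1/3),
      (2 * T q.2 - T q.1 - T (-q.1 - q.2)) * (1/3)) := by
      funext q
      simp only [hΘ]
      ext <;> simp <;> ring
    rw [e1]
    have e2 : Θ' p = (((1/3 : ℝ) • ((2:ℝ) • (T' p.1 • ContinuousLinearMap.fst ℝ ℝ ℝ)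
        - (T' p.2 • ContinuousLinearMap.snd ℝ ℝ ℝ)
        - (T' (-p.1 - p.2) • (-ContinuousLinearMap.fst ℝ ℝ ℝ - ContinuousLinearMap.snd ℝ ℝ ℝ)))).prod
        ((1/3 : ℝ) • ((2:ℝ) • (T' p.2 • ContinuousLinearMap.snd ℝ ℝ ℝ)
        - (T' p.1 • ContinuousLinearMap.fst ℝ ℝ ℝ)
        - (T' (-p.1 - p.2) • (-ContinuousLinearMap.fst ℝ ℝ ℝ - ContinuousLinearMap.snd ℝ ℝ ℝ))))) := by
      simp only [hΘ']
      rw [Matrix.toLin_finTwoProd_toContinuousLinearMap]
      ext <;> simp <;> ring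
    rw [e2]
    exact b
  have hinj : InjOn Θ univ := by
    intro p _ q _ hpq
    simp only [hΘ, Prod.mk.injEq] at hpq
    obtain ⟨e1, e2⟩ := hpq
    have hmono : ∀ x y : ℝ, 0 ≤ (T x - T y) * (x - y) := by
      intro x y
      rcases lt_trichotomy x y with h | h | h
      · have := hTm h; nlinarith
      · simp [h]
      · have := hTm h; nlinarith
    have hstrict : ∀ x y : ℝ, (T x - T y) * (x - y) = 0 → x = y := by
      intro x y h0
      rcases mul_eq_zero.1 h0 with h | h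
      · exact hTm.injective (sub_eq_zero.1 h)
      · exact sub_eq_zero.1 h
    have hsum : (T p.1 - T q.1) * (p.1 - q.1) + (T p.2 - T q.2) * (p.2 - q.2)
        + (T (-p.1 - p.2) - T (-q.1 - q.2)) * ((-p.1 - p.2) - (-q.1 - q.2)) = 0 := by
      have f1 : (T p.1 - T q.1) = (T (-p.1 - p.2) - T (-q.1 - q.2)) := by linarith
      have f2 : (T p.2 - T q.2) = (T (-p.1 - p.2) - T (-q.1 - q.2)) := by linarith
      rw [f1, f2]; ring
    have g1 := hmono p.1 q.1
    have g2 := hmono p.2 q.2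
    have g3 := hmono (-p.1 - p.2) (-q.1 - q.2)
    have k1 := hstrict p.1 q.1 (by linarith)
    have k2 := hstrict p.2 q.2 (by linarith)
    exact Prod.ext k1 k2
  set g : ℝ × ℝ → ℝ≥0∞ := fun p =>
    ENNReal.ofReal (Real.exp (-(4 / 3) * (p.1 ^ 2 + p.1 * p.2 + p.2 ^ 2)) / Real.pi) with hg
  have hcov := lintegral_image_eq_lintegral_abs_det_fderiv_mul volume MeasurableSet.univ
    (fun p _ => (hderiv p).hasFDerivWithinAt) hinj g
  have hpt : ∀ p : ℝ × ℝ, ENNReal.ofReal ((u p.1 * u p.2 * u (-p.1 - p.2)) ^ (2 / 3 : ℝ))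
      ≤ ENNReal.ofReal |(Θ' p).det| * g (Θ p) := by
    intro p
    have hpi : 0 < Real.pi := Real.pi_pos
    rw [hg, ← ENNReal.ofReal_mul (abs_nonneg _)]
    apply ENNReal.ofReal_le_ofReal
    rw [hdet p]
    have hA := hT'0 p.1
    have hB := hT'0 p.2
    have hC := hT'0 (-p.1 - p.2)
    rw [abs_of_pos (by positivity)]
    have e : u p.1 * u p.2 * u (-p.1 - p.2) =
        (T' p.1 * T' p.2 * T' (-p.1 - p.2)) * (gam (T p.1) * gam (T p.2) * gam (T (-p.1 - p.2))) := by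
      rw [hu_eq p.1, hu_eq p.2, hu_eq (-p.1 - p.2)]; ring
    have hG := gam_pos (T p.1)
    have hG2 := gam_pos (T p.2)
    have hG3 := gam_pos (T (-p.1 - p.2))
    rw [e, Real.mul_rpow (by positivity) (by positivity)]
    apply mul_le_mul (amgm _ _ _ hA hB hC) _ (by positivity) (by positivity)
    exact gauss_step _ _ _
  calc ∫⁻ p : ℝ × ℝ, ENNReal.ofReal ((u p.1 * u p.2 * u (-p.1 - p.2)) ^ (2 / 3 : ℝ))
      ≤ ∫⁻ p : ℝ × ℝ, ENNReal.ofReal |(Θ' p).det| * g (Θ p) := lintegral_mono hpt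
    _ = ∫⁻ p in Θ '' univ, g p := by rw [hcov, Measure.restrict_univ]
    _ ≤ ∫⁻ p, g p := setLIntegral_le_lintegral _ _
    _ = ENNReal.ofReal (√3 / 2) := planar_gauss

end Pool.Agent.H.MP_8ae060_pr
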