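import Mathlib
import Pool.Agent.H.MP_8ae060_pr.Young

open MeasureTheory Set Filter
open scoped ENNReal Topology

namespace Pool.Agent.H.MP_8ae060_pr

lemma young_cont' (u : ℝ → ℝ) (hu : Continuous u) (hu0 : ∀ x, 0 < u x) (hui : Integrable u) :
    ∫⁻ p : ℝ × ℝ, ENNReal.ofReal ((u p.1 * u p.2 * u (-p.1 - p.2)) ^ (2 / 3 : ℝ))
      ≤ ENNReal.ofReal (√3 / 2 * (∫ x, u x) ^ 2) := by
  set I : ℝ := ∫ x, u x with hI
  have hIpos : 0 < I := by
    rw [hI, integral_pos_iff_support_of_nonneg (fun x => (hu0 x).le) hui]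
    have : Function.support u = univ := by
      ext x; simp [(hu0 x).ne']
    rw [this]; simp
  have h := young_cont (fun x => u x / I) (hu.div_const _) (fun x => div_pos (hu0 x) hIpos)
    (hui.div_const _) (by rw [integral_div, ← hI]; field_simp)
  have e : ∀ p : ℝ × ℝ, ENNReal.ofReal ((u p.1 * u p.2 * u (-p.1 - p.2)) ^ (2 / 3 : ℝ))
      = ENNReal.ofReal (I ^ 2) *
        ENNReal.ofReal ((u p.1 / I * (u p.2 / I) * (u (-p.1 - p.2) / I)) ^ (2 / 3 : ℝ)) := by
    intro p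
    rw [← ENNReal.ofReal_mul (by positivity)]
    congr 1
    have h1 : u p.1 / I * (u p.2 / I) * (u (-p.1 - p.2) / I)
        = (u p.1 * u p.2 * u (-p.1 - p.2)) * (I ^ (-3 : ℝ)) := by
      rw [Real.rpow_neg hIpos.le, show (3:ℝ) = ((3:ℕ):ℝ) by norm_num, Real.rpow_natCast]
      field_simp
    have k1 := hu0 p.1
    have k2 := hu0 p.2
    have k3 := hu0 (-p.1 - p.2)
    rw [h1, Real.mul_rpow (x := u p.1 * u p.2 * u (-p.1 - p.2)) (y := I ^ (-3:ℝ))
      (by positivity) (by positivity), ← Real.rpow_mul hIpos.le]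
    rw [show (-3 : ℝ) * (2/3) = -((2:ℕ):ℝ) by norm_num, Real.rpow_neg hIpos.le, Real.rpow_natCast]
    field_simp
  simp_rw [e]
  rw [lintegral_const_mul _ (by
    have : Measurable u := hu.measurable
    fun_prop)]
  calc ENNReal.ofReal (I ^ 2) * _ ≤ ENNReal.ofReal (I ^ 2) * ENNReal.ofReal (√3 / 2) := by
        gcongr
    _ = ENNReal.ofReal (√3 / 2 * I ^ 2) := by
        rw [← ENNReal.ofReal_mul (by positivity), mul_comm]

lemma qmp_neg_sub : Measure.QuasiMeasurePreserving (fun p : ℝ × ℝ => -p.1 - p.2)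
    (volume : Measure (ℝ × ℝ)) volume := by
  rw [Measure.volume_eq_prod]
  apply QuasiMeasurePreserving.prod_of_right (by fun_prop)
  refine Eventually.of_forall fun x => ?_
  exact (Measure.measurePreserving_sub_left volume (-x)).quasiMeasurePreserving

lemma qmp_fst : Measure.QuasiMeasurePreserving (fun p : ℝ × ℝ => p.1)
    (volume : Measure (ℝ × ℝ)) volume := by
  rw [Measure.volume_eq_prod]
  exact Measure.quasiMeasurePreserving_fst

lemma qmp_snd : Measure.QuasiMeasurePreserving (fun p : ℝ × ℝ => p.2)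
    (volume : Measure (ℝ × ℝ)) volume := by
  rw [Measure.volume_eq_prod]
  exact Measure.quasiMeasurePreserving_snd

lemma approx_aux (u : ℝ → ℝ) (hu0 : ∀ x, 0 ≤ u x) (hui : Integrable u) :
    ∃ w : ℕ → ℝ → ℝ, (∀ n, Continuous (w n)) ∧ (∀ n x, 0 < w n x) ∧ (∀ n, Integrable (w n)) ∧
      Tendsto (fun n => ∫ x, w n x) atTop (𝓝 (∫ x, u x)) ∧
      (∀ᵐ x, Tendsto (fun n => w n x) atTop (𝓝 (u x))) := by
  have hex : ∀ n : ℕ, ∃ g : ℝ → ℝ, HasCompactSupport g ∧ ∫ x, ‖u x - g x‖ ≤ 1 / ((n:ℝ) + 1)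
      ∧ Continuous g ∧ Integrable g := fun n =>
    hui.exists_hasCompactSupport_integral_sub_le (by positivity)
  choose g hgs hgi hgc hgI using hex
  set w : ℕ → ℝ → ℝ := fun n x => |g n x| + Real.exp (-1 * x ^ 2) / ((n:ℝ) + 1) with hw
  have hE : Integrable (fun x : ℝ => Real.exp (-1 * x ^ 2)) := integrable_exp_neg_mul_sq one_pos
  have hwI : ∀ n, Integrable (w n) := fun n => (hgI n).abs.add (hE.div_const _)
  have hbound : ∀ n, ∫ x, ‖w n x - u x‖ ≤ (1 + √(Real.pi / 1)) / ((n:ℝ) + 1) := by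
    intro n
    have h1 : ∀ x, ‖w n x - u x‖ ≤ ‖u x - g n x‖ + Real.exp (-1 * x ^ 2) / ((n:ℝ) + 1) := by
      intro x
      have h2 : |(|g n x| - u x)| ≤ |u x - g n x| := by
        have := abs_abs_sub_abs_le (g n x) (u x)
        rw [abs_of_nonneg (hu0 x)] at this
        rw [abs_sub_comm (u x) (g n x)]
        exact this
      have h3 : w n x - u x = (|g n x| - u x) + Real.exp (-1 * x ^ 2) / ((n:ℝ) + 1) := by
        simp only [hw]; ring
      rw [h3, Real.norm_eq_abs, Real.norm_eq_abs]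
      have h4 : 0 ≤ Real.exp (-1 * x ^ 2) / ((n:ℝ) + 1) := by positivity
      calc _ ≤ |(|g n x| - u x)| + |Real.exp (-1 * x ^ 2) / ((n:ℝ) + 1)| := abs_add_le _ _
        _ ≤ _ := by rw [abs_of_nonneg h4]; gcongr
    calc ∫ x, ‖w n x - u x‖ ≤ ∫ x, (‖u x - g n x‖ + Real.exp (-1 * x ^ 2) / ((n:ℝ) + 1)) :=
          integral_mono ((hwI n).sub hui).norm ((hui.sub (hgI n)).norm.add (hE.div_const _)) h1
      _ = (∫ x, ‖u x - g n x‖) + √(Real.pi / 1) / ((n:ℝ) + 1) := by
          have e1 := integral_add (hui.sub (hgI n)).norm (hE.div_const ((n:ℝ) + 1))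
          simp only [Pi.sub_apply] at e1
          rw [e1, integral_div, integral_gaussian]
      _ ≤ 1 / ((n:ℝ) + 1) + √(Real.pi / 1) / ((n:ℝ) + 1) := by gcongr; exact hgi n
      _ = _ := by ring
  have hlim0 : Tendsto (fun n : ℕ => (1 + √(Real.pi / 1)) / ((n:ℝ) + 1)) atTop (𝓝 0) := by
    have := tendsto_one_div_add_atTop_nhds_zero_nat (𝕜 := ℝ)
    have h2 := this.const_mul (1 + √(Real.pi / 1))
    simpa [mul_one_div, div_eq_mul_inv] using h2
  have hL1 : Tendsto (fun n => ∫ x, ‖w n x - u x‖) atTop (𝓝 0) :=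
    squeeze_zero (fun n => integral_nonneg fun x => norm_nonneg _) hbound hlim0
  have hL1' : Tendsto (fun n => eLpNorm (w n - u) 1 volume) atTop (𝓝 0) := by
    have h1 : ∀ n, eLpNorm (w n - u) 1 volume = ENNReal.ofReal (∫ x, ‖w n x - u x‖) := by
      intro n
      rw [eLpNorm_one_eq_lintegral_enorm, ← ofReal_integral_norm_eq_lintegral_enorm
        ((hwI n).sub hui)]
      rfl
    simp_rw [h1]
    have := (ENNReal.continuous_ofReal.tendsto 0).comp hL1
    rw [ENNReal.ofReal_zero] at this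
    exact this
  have hmeas : TendstoInMeasure volume w atTop u :=
    tendstoInMeasure_of_tendsto_eLpNorm one_ne_zero (fun n => (hwI n).aestronglyMeasurable)
      hui.aestronglyMeasurable hL1'
  obtain ⟨ns, hns, hae⟩ := hmeas.exists_seq_tendsto_ae
  refine ⟨fun n => w (ns n), fun n => ?_, fun n x => ?_, fun n => hwI _, ?_, hae⟩
  · have := hgc (ns n)
    simp only [hw]
    fun_prop
  · simp only [hw]; positivity
  · have h1 : Tendsto (fun n => ∫ x, w n x) atTop (𝓝 (∫ x, u x)) := by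
      rw [tendsto_iff_norm_sub_tendsto_zero]
      refine squeeze_zero (fun n => norm_nonneg _) (fun n => ?_) hL1
      rw [← integral_sub (hwI n) hui]
      exact norm_integral_le_integral_norm _
    exact h1.comp hns.tendsto_atTop

lemma young_int (u : ℝ → ℝ) (hu0 : ∀ x, 0 ≤ u x) (hui : Integrable u) :
    ∫⁻ p : ℝ × ℝ, ENNReal.ofReal ((u p.1 * u p.2 * u (-p.1 - p.2)) ^ (2 / 3 : ℝ))
      ≤ ENNReal.ofReal (√3 / 2 * (∫ x, u x) ^ 2) := by
  obtain ⟨w, hwc, hw0, hwI, hwlim, hwae⟩ := approx_aux u hu0 hui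
  have h1 := qmp_fst.ae hwae
  have h2 := qmp_snd.ae hwae
  have h3 := qmp_neg_sub.ae hwae
  have hae : ∀ᵐ p : ℝ × ℝ, ENNReal.ofReal ((u p.1 * u p.2 * u (-p.1 - p.2)) ^ (2 / 3 : ℝ))
      = liminf (fun n => ENNReal.ofReal ((w n p.1 * w n p.2 * w n (-p.1 - p.2)) ^ (2 / 3 : ℝ)))
        atTop := by
    filter_upwards [h1, h2, h3] with p k1 k2 k3
    symm
    apply Tendsto.liminf_eq
    apply (ENNReal.continuous_ofReal.tendsto _).comp
    exact ((k1.mul k2).mul k3).rpow_const (Or.inr (by norm_num))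
  rw [lintegral_congr_ae hae]
  calc ∫⁻ p : ℝ × ℝ, liminf (fun n => ENNReal.ofReal
        ((w n p.1 * w n p.2 * w n (-p.1 - p.2)) ^ (2 / 3 : ℝ))) atTop
      ≤ liminf (fun n => ∫⁻ p : ℝ × ℝ, ENNReal.ofReal
        ((w n p.1 * w n p.2 * w n (-p.1 - p.2)) ^ (2 / 3 : ℝ))) atTop := by
        apply lintegral_liminf_le
        intro n
        have := (hwc n).measurable
        fun_prop
    _ ≤ liminf (fun n => ENNReal.ofReal (√3 / 2 * (∫ x, w n x) ^ 2)) atTop := by
        refine liminf_le_liminf (Eventually.of_forall fun n => ?_)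
        exact young_cont' (w n) (hwc n) (hw0 n) (hwI n)
    _ = ENNReal.ofReal (√3 / 2 * (∫ x, u x) ^ 2) := by
        apply Tendsto.liminf_eq
        apply (ENNReal.continuous_ofReal.tendsto _).comp
        exact (hwlim.pow 2).const_mul _

/-- Sharp Young inequality in the plane (extended nonnegative version). -/
theorem young_meas (u : ℝ → ℝ≥0∞) (hu : Measurable u) (hI : ∫⁻ x, u x ≠ ∞) :
    ∫⁻ p : ℝ × ℝ, (u p.1 * u p.2 * u (-p.1 - p.2)) ^ (2 / 3 : ℝ)
      ≤ ENNReal.ofReal (√3 / 2) * (∫⁻ x, u x) ^ 2 := by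
  set v : ℝ → ℝ := fun x => (u x).toReal with hv
  have hvI : Integrable v := integrable_toReal_of_lintegral_ne_top hu.aemeasurable hI
  have hfin : ∀ᵐ x, u x < ∞ := ae_lt_top hu hI
  have huv : ∀ᵐ x, u x = ENNReal.ofReal (v x) := by
    filter_upwards [hfin] with x hx
    simp only [hv]
    rw [ENNReal.ofReal_toReal hx.ne]
  have h := young_int v (fun x => ENNReal.toReal_nonneg) hvI
  have h1 := qmp_fst.ae huv
  have h2 := qmp_snd.ae huv
  have h3 := qmp_neg_sub.ae huv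
  have hae : ∀ᵐ p : ℝ × ℝ, (u p.1 * u p.2 * u (-p.1 - p.2)) ^ (2 / 3 : ℝ)
      = ENNReal.ofReal ((v p.1 * v p.2 * v (-p.1 - p.2)) ^ (2 / 3 : ℝ)) := by
    filter_upwards [h1, h2, h3] with p k1 k2 k3
    have a1 : 0 ≤ v p.1 := ENNReal.toReal_nonneg
    have a2 : 0 ≤ v p.2 := ENNReal.toReal_nonneg
    have a3 : 0 ≤ v (-p.1 - p.2) := ENNReal.toReal_nonneg
    rw [k1, k2, k3, ← ENNReal.ofReal_mul a1, ← ENNReal.ofReal_mul (mul_nonneg a1 a2),
      ENNReal.ofReal_rpow_of_nonneg (by positivity) (by norm_num)]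
  rw [lintegral_congr_ae hae]
  have hint : ∫ x, v x = (∫⁻ x, u x).toReal := integral_toReal hu.aemeasurable hfin
  rw [hint] at h
  refine h.trans (le_of_eq ?_)
  rw [ENNReal.ofReal_mul (by positivity), ENNReal.ofReal_pow ENNReal.toReal_nonneg,
    ENNReal.ofReal_toReal hI]

end Pool.Agent.H.MP_8ae060_pr
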