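import Mathlib
import Pool.Agent.H.MP_8ae060_pr.YoungMeas

open MeasureTheory Set Filter
open scoped ENNReal Topology

namespace Pool.Agent.H.MP_8ae060_pr

/-- Young inequality on the plane `x + y + z = s`. -/
lemma young_shift (k : ℝ → ℝ≥0∞) (hk : Measurable k) (hI : ∫⁻ x, k x ≠ ∞) (s : ℝ) :
    ∫⁻ x, ∫⁻ y, (k x * k y * k (s - x - y)) ^ (2 / 3 : ℝ)
      ≤ ENNReal.ofReal (√3 / 2) * (∫⁻ x, k x) ^ 2 := by
  set u : ℝ → ℝ≥0∞ := fun x => k (x + s / 3) with hu
  have hum : Measurable u := by fun_prop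
  have huI : ∫⁻ x, u x = ∫⁻ x, k x := lintegral_add_right_eq_self k (s / 3)
  have h := young_meas u hum (by rw [huI]; exact hI)
  rw [huI, Measure.volume_eq_prod, lintegral_prod _ (by fun_prop)] at h
  refine le_trans (le_of_eq ?_) h
  have e1 : ∀ x : ℝ, ∫⁻ y, (k x * k y * k (s - x - y)) ^ (2 / 3 : ℝ)
      = ∫⁻ y, (k x * k (y + s / 3) * k (s - x - (y + s / 3))) ^ (2 / 3 : ℝ) := by
    intro x
    exact (lintegral_add_right_eq_self
      (fun y => (k x * k y * k (s - x - y)) ^ (2 / 3 : ℝ)) (s / 3)).symm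
  simp_rw [e1]
  rw [← lintegral_add_right_eq_self
    (fun x => ∫⁻ y, (k x * k (y + s / 3) * k (s - x - (y + s / 3))) ^ (2 / 3 : ℝ)) (s / 3)]
  apply lintegral_congr
  intro x
  apply lintegral_congr
  intro y
  simp only [hu]
  congr 3
  ring

lemma ennreal_aux (h c : ℝ≥0∞) : c * h ^ 2 * h⁻¹ ≤ c * h := by
  rcases eq_or_ne h 0 with h0 | h0
  · simp [h0]
  rcases eq_or_ne h ∞ with h1 | h1
  · simp [h1]
  rw [sq, ← mul_assoc, mul_assoc (c * h) h h⁻¹, ENNReal.mul_inv_cancel h0 h1, mul_one]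

/-- The key three-dimensional bound. -/
theorem key_lintegral (f g h : ℝ → ℝ≥0∞) (hf : Measurable f) (hg : Measurable g)
    (hh : Measurable h) (hconv : ∀ᵐ s, ∫⁻ x, f x * g (s - x) = h s) (hh1 : ∫⁻ s, h s ≤ 1) :
    ∫⁻ x, ∫⁻ y, ∫⁻ z, (f x * g (y + z) * (f y * g (x + z)) * (f z * g (x + y))) ^ (2 / 3 : ℝ)
      * (h (x + y + z))⁻¹ ≤ ENNReal.ofReal (√3 / 2) := by
  have e1 : ∀ x y : ℝ, ∫⁻ z, (f x * g (y + z) * (f y * g (x + z)) * (f z * g (x + y))) ^ (2 / 3 : ℝ)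
      * (h (x + y + z))⁻¹ = ∫⁻ s, (f x * g (s - x) * (f y * g (s - y)) *
        (f (s - x - y) * g (s - (s - x - y)))) ^ (2 / 3 : ℝ) * (h s)⁻¹ := by
    intro x y
    rw [← lintegral_add_right_eq_self (fun z => (f x * g (y + z) * (f y * g (x + z)) *
      (f z * g (x + y))) ^ (2 / 3 : ℝ) * (h (x + y + z))⁻¹) (-x - y)]
    apply lintegral_congr
    intro s
    have a1 : y + (s + (-x - y)) = s - x := by ring
    have a2 : x + (s + (-x - y)) = s - y := by ring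
    have a3 : s + (-x - y) = s - x - y := by ring
    have a4 : x + y + (s - x - y) = s := by ring
    have a5 : s - (s - x - y) = x + y := by ring
    rw [a1, a2, a3, a4, a5]
  simp_rw [e1]
  have e2 : ∀ x : ℝ, ∫⁻ y, ∫⁻ s, (f x * g (s - x) * (f y * g (s - y)) *
        (f (s - x - y) * g (s - (s - x - y)))) ^ (2 / 3 : ℝ) * (h s)⁻¹
      = ∫⁻ s, ∫⁻ y, (f x * g (s - x) * (f y * g (s - y)) *
        (f (s - x - y) * g (s - (s - x - y)))) ^ (2 / 3 : ℝ) * (h s)⁻¹ := by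
    intro x
    apply lintegral_lintegral_swap
    apply Measurable.aemeasurable
    fun_prop
  simp_rw [e2]
  rw [lintegral_lintegral_swap]
  · have hbd : ∀ᵐ s, ∫⁻ x, ∫⁻ y, (f x * g (s - x) * (f y * g (s - y)) *
        (f (s - x - y) * g (s - (s - x - y)))) ^ (2 / 3 : ℝ) * (h s)⁻¹
        ≤ ENNReal.ofReal (√3 / 2) * h s := by
      have hfin : ∀ᵐ s, h s < ∞ := ae_lt_top hh (hh1.trans_lt ENNReal.one_lt_top).ne
      filter_upwards [hconv, hfin] with s hs hsf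
      have hkm : Measurable (fun x => f x * g (s - x)) := by fun_prop
      have hy := young_shift (fun x => f x * g (s - x)) hkm (by rw [hs]; exact hsf.ne) s
      rw [hs] at hy
      have e3 : ∀ x : ℝ, ∫⁻ y, (f x * g (s - x) * (f y * g (s - y)) *
        (f (s - x - y) * g (s - (s - x - y)))) ^ (2 / 3 : ℝ) * (h s)⁻¹ =
        (∫⁻ y, (f x * g (s - x) * (f y * g (s - y)) *
        (f (s - x - y) * g (s - (s - x - y)))) ^ (2 / 3 : ℝ)) * (h s)⁻¹ := by
        intro x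
        rw [lintegral_mul_const _ (by fun_prop)]
      simp_rw [e3]
      rw [lintegral_mul_const]
      · calc _ ≤ (ENNReal.ofReal (√3 / 2) * h s ^ 2) * (h s)⁻¹ := by
              gcongr
          _ ≤ _ := ennreal_aux _ _
      · apply Measurable.lintegral_prod_right'
          (f := fun p : ℝ × ℝ => (f p.1 * g (s - p.1) * (f p.2 * g (s - p.2)) *
          (f (s - p.1 - p.2) * g (s - (s - p.1 - p.2)))) ^ (2 / 3 : ℝ))
        fun_prop
    calc _ ≤ ∫⁻ s, ENNReal.ofReal (√3 / 2) * h s := lintegral_mono_ae hbd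
      _ = ENNReal.ofReal (√3 / 2) * ∫⁻ s, h s := lintegral_const_mul _ hh
      _ ≤ ENNReal.ofReal (√3 / 2) * 1 := by gcongr
      _ = _ := mul_one _
  · apply Measurable.aemeasurable
    apply Measurable.lintegral_prod_right'
      (f := fun p : (ℝ × ℝ) × ℝ => (f p.1.1 * g (p.1.2 - p.1.1) * (f p.2 * g (p.1.2 - p.2)) *
        (f (p.1.2 - p.1.1 - p.2) * g (p.1.2 - (p.1.2 - p.1.1 - p.2)))) ^ (2 / 3 : ℝ) * (h p.1.2)⁻¹)
    fun_prop

end Pool.Agent.H.MP_8ae060_pr
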