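import Mathlib
import Pool.Agent.H.MP_8ae060_pr.Key

open MeasureTheory Set Filter
open scoped ENNReal Topology

namespace Pool.Agent.H.MP_8ae060_pr

/-- Entropy as the mean of minus the log-density. -/
lemma ent (ν : Measure ℝ) [IsProbabilityMeasure ν] (hν : ν ≪ volume)
    (hI : Integrable (fun x : ℝ => Real.negMulLog (ν.rnDeriv volume x).toReal) volume) :
    Integrable (fun x : ℝ => Real.log (ν.rnDeriv volume x).toReal) ν ∧
    ∫ x, Real.log (ν.rnDeriv volume x).toReal ∂ν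
      = -∫ x : ℝ, Real.negMulLog (ν.rnDeriv volume x).toReal := by
  constructor
  · rw [← integrable_rnDeriv_smul_iff hν]
    refine hI.neg.congr (Eventually.of_forall fun x => ?_)
    simp [Real.negMulLog]
  · rw [← integral_rnDeriv_smul hν, ← integral_neg]
    apply integral_congr_ae
    exact Eventually.of_forall fun x => by simp [Real.negMulLog]

variable (μ : Measure ℝ) [IsProbabilityMeasure μ]

lemma mp_x : MeasurePreserving (fun p : ℝ × ℝ × ℝ => p.1) (μ.prod (μ.prod μ)) μ :=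
  measurePreserving_fst

lemma mp_y : MeasurePreserving (fun p : ℝ × ℝ × ℝ => p.2.1) (μ.prod (μ.prod μ)) μ :=
  (measurePreserving_fst (μ := μ) (ν := μ)).comp (measurePreserving_snd (μ := μ) (ν := μ.prod μ))

lemma mp_z : MeasurePreserving (fun p : ℝ × ℝ × ℝ => p.2.2) (μ.prod (μ.prod μ)) μ :=
  (measurePreserving_snd (μ := μ) (ν := μ)).comp (measurePreserving_snd (μ := μ) (ν := μ.prod μ))

omit [IsProbabilityMeasure μ] in
lemma mp_add : MeasurePreserving (fun p : ℝ × ℝ => p.1 + p.2) (μ.prod μ) (Measure.conv μ μ) :=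
  ⟨by fun_prop, rfl⟩

lemma mp_yz : MeasurePreserving (fun p : ℝ × ℝ × ℝ => p.2.1 + p.2.2) (μ.prod (μ.prod μ))
    (Measure.conv μ μ) :=
  (mp_add μ).comp (measurePreserving_snd (μ := μ) (ν := μ.prod μ))

lemma mp_xz : MeasurePreserving (fun p : ℝ × ℝ × ℝ => p.1 + p.2.2) (μ.prod (μ.prod μ))
    (Measure.conv μ μ) :=
  (mp_add μ).comp ((MeasurePreserving.id μ).prod (measurePreserving_snd (μ := μ) (ν := μ)))

lemma mp_xy : MeasurePreserving (fun p : ℝ × ℝ × ℝ => p.1 + p.2.1) (μ.prod (μ.prod μ))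
    (Measure.conv μ μ) :=
  (mp_add μ).comp ((MeasurePreserving.id μ).prod (measurePreserving_fst (μ := μ) (ν := μ)))

lemma mp_xyz : MeasurePreserving (fun p : ℝ × ℝ × ℝ => p.1 + p.2.1 + p.2.2) (μ.prod (μ.prod μ))
    (Measure.conv (Measure.conv μ μ) μ) := by
  have h1 : MeasurePreserving (fun p : ℝ × ℝ => p.1 + p.2) (μ.prod (Measure.conv μ μ))
      (Measure.conv μ (Measure.conv μ μ)) := ⟨by fun_prop, rfl⟩
  have h2 := h1.comp ((MeasurePreserving.id μ).prod (mp_add μ))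
  rw [Measure.conv_assoc]
  convert h2 using 1
  funext p
  simp [add_assoc]

lemma ennreal_aux2 (a : ℝ≥0∞) : a * a ^ (-(1/3) : ℝ) ≤ a ^ (2/3 : ℝ) := by
  rcases eq_or_ne a 0 with h0 | h0
  · simp [h0]
  rcases eq_or_ne a ∞ with h1 | h1
  · simp [h1]
  nth_rewrite 1 [← ENNReal.rpow_one a]
  rw [← ENNReal.rpow_add _ _ h0 h1]
  norm_num

/-- The exponential moment of the log-likelihood ratio. -/
lemma exp_moment (hμ : μ ≪ volume) :
    ∫⁻ p : ℝ × ℝ × ℝ, ENNReal.ofReal (Real.exp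
      ((2/3) * (Real.log ((Measure.conv μ μ).rnDeriv volume (p.2.1 + p.2.2)).toReal
        + Real.log ((Measure.conv μ μ).rnDeriv volume (p.1 + p.2.2)).toReal
        + Real.log ((Measure.conv μ μ).rnDeriv volume (p.1 + p.2.1)).toReal)
       - (1/3) * (Real.log (μ.rnDeriv volume p.1).toReal
        + Real.log (μ.rnDeriv volume p.2.1).toReal
        + Real.log (μ.rnDeriv volume p.2.2).toReal)
       - Real.log ((Measure.conv (Measure.conv μ μ) μ).rnDeriv volume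
          (p.1 + p.2.1 + p.2.2)).toReal)) ∂(μ.prod (μ.prod μ))
      ≤ ENNReal.ofReal (√3 / 2) := by
  set f := μ.rnDeriv volume with hf
  set g := (Measure.conv μ μ).rnDeriv volume with hg
  set h := (Measure.conv (Measure.conv μ μ) μ).rnDeriv volume with hh
  have hfm : Measurable f := Measure.measurable_rnDeriv _ _
  have hgm : Measurable g := Measure.measurable_rnDeriv _ _
  have hhm : Measurable h := Measure.measurable_rnDeriv _ _
  have hμ2 : Measure.conv μ μ ≪ volume := Measure.conv_absolutelyContinuous hμ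
  have hμ3 : Measure.conv (Measure.conv μ μ) μ ≪ volume := Measure.conv_absolutelyContinuous hμ
  -- almost sure positivity and finiteness
  have pf : ∀ᵐ x ∂μ, 0 < f x ∧ f x < ∞ :=
    (Measure.rnDeriv_pos hμ).and (hμ.ae_le (Measure.rnDeriv_lt_top μ volume))
  have pg : ∀ᵐ x ∂(Measure.conv μ μ), 0 < g x ∧ g x < ∞ :=
    (Measure.rnDeriv_pos hμ2).and (hμ2.ae_le (Measure.rnDeriv_lt_top _ volume))
  have ph : ∀ᵐ x ∂(Measure.conv (Measure.conv μ μ) μ), 0 < h x ∧ h x < ∞ :=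
    (Measure.rnDeriv_pos hμ3).and (hμ3.ae_le (Measure.rnDeriv_lt_top _ volume))
  have q1 := (mp_x μ).quasiMeasurePreserving.ae pf
  have q2 := (mp_y μ).quasiMeasurePreserving.ae pf
  have q3 := (mp_z μ).quasiMeasurePreserving.ae pf
  have q4 := (mp_yz μ).quasiMeasurePreserving.ae pg
  have q5 := (mp_xz μ).quasiMeasurePreserving.ae pg
  have q6 := (mp_xy μ).quasiMeasurePreserving.ae pg
  have q7 := (mp_xyz μ).quasiMeasurePreserving.ae ph
  have hexp : ∀ᵐ p : ℝ × ℝ × ℝ ∂(μ.prod (μ.prod μ)), ENNReal.ofReal (Real.exp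
      ((2/3) * (Real.log (g (p.2.1 + p.2.2)).toReal
        + Real.log (g (p.1 + p.2.2)).toReal
        + Real.log (g (p.1 + p.2.1)).toReal)
       - (1/3) * (Real.log (f p.1).toReal
        + Real.log (f p.2.1).toReal
        + Real.log (f p.2.2).toReal)
       - Real.log (h (p.1 + p.2.1 + p.2.2)).toReal))
      = (g (p.2.1 + p.2.2) * g (p.1 + p.2.2) * g (p.1 + p.2.1)) ^ (2/3 : ℝ)
        * (f p.1 * f p.2.1 * f p.2.2) ^ (-(1/3) : ℝ) * (h (p.1 + p.2.1 + p.2.2))⁻¹ := by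
    filter_upwards [q1, q2, q3, q4, q5, q6, q7] with p r1 r2 r3 r4 r5 r6 r7
    have key : ∀ a : ℝ≥0∞, 0 < a ∧ a < ∞ → ∃ t : ℝ, a = ENNReal.ofReal (Real.exp t) := by
      intro a ha
      refine ⟨Real.log a.toReal, ?_⟩
      rw [Real.exp_log (ENNReal.toReal_pos ha.1.ne' ha.2.ne), ENNReal.ofReal_toReal ha.2.ne]
    obtain ⟨t1, e1⟩ := key _ r1
    obtain ⟨t2, e2⟩ := key _ r2
    obtain ⟨t3, e3⟩ := key _ r3
    obtain ⟨t4, e4⟩ := key _ r4
    obtain ⟨t5, e5⟩ := key _ r5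
    obtain ⟨t6, e6⟩ := key _ r6
    obtain ⟨t7, e7⟩ := key _ r7
    rw [e1, e2, e3, e4, e5, e6, e7]
    simp only [ENNReal.toReal_ofReal (Real.exp_pos _).le, Real.log_exp]
    rw [← ENNReal.ofReal_mul (Real.exp_pos _).le, ← Real.exp_add,
      ← ENNReal.ofReal_mul (Real.exp_pos _).le, ← Real.exp_add,
      ← ENNReal.ofReal_mul (Real.exp_pos _).le, ← Real.exp_add,
      ← ENNReal.ofReal_mul (Real.exp_pos _).le, ← Real.exp_add,
      ENNReal.ofReal_rpow_of_pos (Real.exp_pos _), ENNReal.ofReal_rpow_of_pos (Real.exp_pos _),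
      ← Real.exp_mul, ← Real.exp_mul, ← ENNReal.ofReal_inv_of_pos (Real.exp_pos _),
      ← Real.exp_neg, ← ENNReal.ofReal_mul (Real.exp_pos _).le, ← Real.exp_add,
      ← ENNReal.ofReal_mul (Real.exp_pos _).le, ← Real.exp_add]
    congr 2
    ring
  rw [lintegral_congr_ae hexp]
  -- write the integral against Lebesgue measure
  rw [lintegral_prod _ (by fun_prop)]
  have s1 : ∀ x : ℝ, ∫⁻ q : ℝ × ℝ, (g (q.1 + q.2) * g (x + q.2) * g (x + q.1)) ^ (2/3 : ℝ)
        * (f x * f q.1 * f q.2) ^ (-(1/3) : ℝ) * (h (x + q.1 + q.2))⁻¹ ∂(μ.prod μ)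
      = ∫⁻ y, ∫⁻ z, (g (y + z) * g (x + z) * g (x + y)) ^ (2/3 : ℝ)
        * (f x * f y * f z) ^ (-(1/3) : ℝ) * (h (x + y + z))⁻¹ ∂μ ∂μ := by
    intro x
    rw [lintegral_prod _ (by fun_prop)]
  have s1' : ∫⁻ (x : ℝ), ∫⁻ (y : ℝ × ℝ), (g ((x, y).2.1 + (x, y).2.2) * g ((x, y).1 + (x, y).2.2)
      * g ((x, y).1 + (x, y).2.1)) ^ (2/3 : ℝ) * (f (x, y).1 * f (x, y).2.1 * f (x, y).2.2)
      ^ (-(1/3) : ℝ) * (h ((x, y).1 + (x, y).2.1 + (x, y).2.2))⁻¹ ∂(μ.prod μ) ∂μ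
      = ∫⁻ x, ∫⁻ y, ∫⁻ z, (g (y + z) * g (x + z) * g (x + y)) ^ (2/3 : ℝ)
        * (f x * f y * f z) ^ (-(1/3) : ℝ) * (h (x + y + z))⁻¹ ∂μ ∂μ ∂μ :=
    lintegral_congr fun x => s1 x
  rw [s1']
  have w : ∀ F : ℝ → ℝ≥0∞, Measurable F → ∫⁻ x, F x ∂μ = ∫⁻ x, f x * F x := by
    intro F hF
    rw [hf, lintegral_rnDeriv_mul hμ hF.aemeasurable]
  have s2 : ∀ x y : ℝ, ∫⁻ z, (g (y + z) * g (x + z) * g (x + y)) ^ (2/3 : ℝ)
        * (f x * f y * f z) ^ (-(1/3) : ℝ) * (h (x + y + z))⁻¹ ∂μ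
      = ∫⁻ z, f z * ((g (y + z) * g (x + z) * g (x + y)) ^ (2/3 : ℝ)
        * (f x * f y * f z) ^ (-(1/3) : ℝ) * (h (x + y + z))⁻¹) := by
    intro x y
    exact w _ (by fun_prop)
  simp_rw [s2]
  have m2 : ∀ x : ℝ, Measurable fun y => ∫⁻ z, f z * ((g (y + z) * g (x + z) * g (x + y)) ^ (2/3 : ℝ)
        * (f x * f y * f z) ^ (-(1/3) : ℝ) * (h (x + y + z))⁻¹) := by
    intro x
    apply Measurable.lintegral_prod_right'
      (f := fun p : ℝ × ℝ => f p.2 * ((g (p.1 + p.2) * g (x + p.2) * g (x + p.1)) ^ (2/3 : ℝ)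
        * (f x * f p.1 * f p.2) ^ (-(1/3) : ℝ) * (h (x + p.1 + p.2))⁻¹))
    fun_prop
  have s3 : ∀ x : ℝ, ∫⁻ y, (∫⁻ z, f z * ((g (y + z) * g (x + z) * g (x + y)) ^ (2/3 : ℝ)
        * (f x * f y * f z) ^ (-(1/3) : ℝ) * (h (x + y + z))⁻¹)) ∂μ
      = ∫⁻ y, f y * (∫⁻ z, f z * ((g (y + z) * g (x + z) * g (x + y)) ^ (2/3 : ℝ)
        * (f x * f y * f z) ^ (-(1/3) : ℝ) * (h (x + y + z))⁻¹)) := by
    intro x
    exact w _ (m2 x)
  simp_rw [s3]
  have m3 : Measurable fun x => ∫⁻ y, f y * (∫⁻ z, f z * ((g (y + z) * g (x + z) * g (x + y)) ^ (2/3 : ℝ)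
        * (f x * f y * f z) ^ (-(1/3) : ℝ) * (h (x + y + z))⁻¹)) := by
    apply Measurable.lintegral_prod_right'
      (f := fun p : ℝ × ℝ => f p.2 * (∫⁻ z, f z * ((g (p.2 + z) * g (p.1 + z) * g (p.1 + p.2)) ^ (2/3 : ℝ)
        * (f p.1 * f p.2 * f z) ^ (-(1/3) : ℝ) * (h (p.1 + p.2 + z))⁻¹)))
    apply Measurable.mul (by fun_prop)
    apply Measurable.lintegral_prod_right'
      (f := fun p : (ℝ × ℝ) × ℝ => f p.2 * ((g (p.1.2 + p.2) * g (p.1.1 + p.2) * g (p.1.1 + p.1.2)) ^ (2/3 : ℝ)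
        * (f p.1.1 * f p.1.2 * f p.2) ^ (-(1/3) : ℝ) * (h (p.1.1 + p.1.2 + p.2))⁻¹))
    fun_prop
  rw [w _ m3]
  have hconv : ∀ᵐ s, ∫⁻ x, f x * g (s - x) = h s := by
    have e := rnDeriv_conv (μ := (volume : Measure ℝ)) (ν₁ := μ) (ν₂ := Measure.conv μ μ) hμ hμ2
    have e2 : Measure.conv μ (Measure.conv μ μ) = Measure.conv (Measure.conv μ μ) μ := by
      rw [Measure.conv_assoc]
    rw [e2] at e
    filter_upwards [e] with s hs
    rw [hh, hs, lconvolution_def]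
    apply lintegral_congr
    intro x
    rw [neg_add_eq_sub]
  have hh1 : ∫⁻ s, h s ≤ 1 := by
    have := Measure.lintegral_rnDeriv_le (μ := Measure.conv (Measure.conv μ μ) μ)
      (ν := (volume : Measure ℝ))
    rw [measure_univ] at this
    exact this
  refine le_trans ?_ (key_lintegral f g h hfm hgm hhm hconv hh1)
  apply lintegral_mono
  intro x
  simp only
  rw [← lintegral_const_mul _ (by
    apply Measurable.mul hfm
    apply Measurable.lintegral_prod_right'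
      (f := fun p : ℝ × ℝ => f p.2 * ((g (p.1 + p.2) * g (x + p.2) * g (x + p.1)) ^ (2/3 : ℝ)
        * (f x * f p.1 * f p.2) ^ (-(1/3) : ℝ) * (h (x + p.1 + p.2))⁻¹))
    fun_prop)]
  apply lintegral_mono
  intro y
  simp only
  rw [← mul_assoc, ← lintegral_const_mul _ (by fun_prop)]
  apply lintegral_mono
  intro z
  simp only
  have a1 : f x * f y * (f z * ((g (y + z) * g (x + z) * g (x + y)) ^ (2/3 : ℝ)
        * (f x * f y * f z) ^ (-(1/3) : ℝ) * (h (x + y + z))⁻¹))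
      = ((f x * f y * f z) * (f x * f y * f z) ^ (-(1/3) : ℝ)) *
        (g (y + z) * g (x + z) * g (x + y)) ^ (2/3 : ℝ) * (h (x + y + z))⁻¹ := by ring
  rw [a1]
  have a2 : f x * g (y + z) * (f y * g (x + z)) * (f z * g (x + y))
      = (f x * f y * f z) * (g (y + z) * g (x + z) * g (x + y)) := by ring
  rw [a2, ENNReal.mul_rpow_of_nonneg (f x * f y * f z) (g (y + z) * g (x + z) * g (x + y))
    (by norm_num : (0:ℝ) ≤ 2/3)]
  gcongr
  exact ennreal_aux2 _

omit [IsProbabilityMeasure μ] in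
lemma integral_comb {Ω : Type*} [MeasurableSpace Ω] (P : Measure Ω)
    (a1 a2 a3 a4 a5 a6 a7 : Ω → ℝ) (h1 : Integrable a1 P) (h2 : Integrable a2 P)
    (h3 : Integrable a3 P) (h4 : Integrable a4 P) (h5 : Integrable a5 P) (h6 : Integrable a6 P)
    (h7 : Integrable a7 P) :
    ∫ p, ((2/3) * (a4 p + a5 p + a6 p) - (1/3) * (a1 p + a2 p + a3 p) - a7 p) ∂P
      = (2/3) * ((∫ p, a4 p ∂P) + (∫ p, a5 p ∂P) + (∫ p, a6 p ∂P))
        - (1/3) * ((∫ p, a1 p ∂P) + (∫ p, a2 p ∂P) + (∫ p, a3 p ∂P)) - (∫ p, a7 p ∂P) := by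
  have g1 : Integrable (fun p => a4 p + a5 p) P := h4.add h5
  have g2 : Integrable (fun p => a4 p + a5 p + a6 p) P := g1.add h6
  have g3 : Integrable (fun p => (2/3) * (a4 p + a5 p + a6 p)) P := g2.const_mul _
  have g4 : Integrable (fun p => a1 p + a2 p) P := h1.add h2
  have g5 : Integrable (fun p => a1 p + a2 p + a3 p) P := g4.add h3
  have g6 : Integrable (fun p => (1/3) * (a1 p + a2 p + a3 p)) P := g5.const_mul _
  have g7 : Integrable (fun p => (2/3) * (a4 p + a5 p + a6 p) - (1/3) * (a1 p + a2 p + a3 p)) P :=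
    g3.sub g6
  rw [integral_sub g7 h7, integral_sub g3 g6, integral_const_mul, integral_const_mul,
    integral_add g1 h6, integral_add h4 h5, integral_add g4 h3, integral_add h1 h2]

/-- The entropy inequality. -/
theorem main (hμ : μ ≪ volume)
    (i1 : Integrable (fun x : ℝ => Real.negMulLog (μ.rnDeriv volume x).toReal) volume)
    (i2 : Integrable (fun x : ℝ =>
        Real.negMulLog ((Measure.conv μ μ).rnDeriv volume x).toReal) volume)
    (i3 : Integrable (fun x : ℝ =>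
        Real.negMulLog ((Measure.conv (Measure.conv μ μ) μ).rnDeriv volume x).toReal) volume) :
    Real.log (4 / 3) / 2 ≤
        2 * (∫ x : ℝ, Real.negMulLog ((Measure.conv μ μ).rnDeriv volume x).toReal)
          - (∫ x : ℝ, Real.negMulLog
              ((Measure.conv (Measure.conv μ μ) μ).rnDeriv volume x).toReal)
          - (∫ x : ℝ, Real.negMulLog (μ.rnDeriv volume x).toReal) := by
  have hμ2 : Measure.conv μ μ ≪ volume := Measure.conv_absolutelyContinuous hμ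
  have hμ3 : Measure.conv (Measure.conv μ μ) μ ≪ volume := Measure.conv_absolutelyContinuous hμ
  obtain ⟨j1, k1⟩ := ent μ hμ i1
  obtain ⟨j2, k2⟩ := ent (Measure.conv μ μ) hμ2 i2
  obtain ⟨j3, k3⟩ := ent (Measure.conv (Measure.conv μ μ) μ) hμ3 i3
  have hexp := exp_moment μ hμ
  set P := μ.prod (μ.prod μ) with hP
  -- the seven integrals
  have tr : ∀ (ν : Measure ℝ) (φ : ℝ × ℝ × ℝ → ℝ), MeasurePreserving φ P ν →
      ∀ F : ℝ → ℝ, Integrable F ν → Integrable (fun p => F (φ p)) P ∧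
        ∫ p, F (φ p) ∂P = ∫ x, F x ∂ν := by
    intro ν φ hφ F hF
    constructor
    · exact hφ.integrable_comp_of_integrable hF
    · rw [← hφ.map_eq, integral_map hφ.aemeasurable]
      rw [hφ.map_eq]
      exact hF.aestronglyMeasurable
  obtain ⟨A1, B1⟩ := tr _ _ (mp_x μ) _ j1
  obtain ⟨A2, B2⟩ := tr _ _ (mp_y μ) _ j1
  obtain ⟨A3, B3⟩ := tr _ _ (mp_z μ) _ j1
  obtain ⟨A4, B4⟩ := tr _ _ (mp_yz μ) _ j2
  obtain ⟨A5, B5⟩ := tr _ _ (mp_xz μ) _ j2
  obtain ⟨A6, B6⟩ := tr _ _ (mp_xy μ) _ j2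
  obtain ⟨A7, B7⟩ := tr _ _ (mp_xyz μ) _ j3
  set W : ℝ × ℝ × ℝ → ℝ := fun p =>
      (2/3) * (Real.log ((Measure.conv μ μ).rnDeriv volume (p.2.1 + p.2.2)).toReal
        + Real.log ((Measure.conv μ μ).rnDeriv volume (p.1 + p.2.2)).toReal
        + Real.log ((Measure.conv μ μ).rnDeriv volume (p.1 + p.2.1)).toReal)
       - (1/3) * (Real.log (μ.rnDeriv volume p.1).toReal
        + Real.log (μ.rnDeriv volume p.2.1).toReal
        + Real.log (μ.rnDeriv volume p.2.2).toReal)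
       - Real.log ((Measure.conv (Measure.conv μ μ) μ).rnDeriv volume
          (p.1 + p.2.1 + p.2.2)).toReal with hW
  have hWI : Integrable W P :=
    ((((A4.add A5).add A6).const_mul (2/3)).sub (((A1.add A2).add A3).const_mul (1/3))).sub A7
  have hWint : ∫ p, W p ∂P = -(2 * (∫ x : ℝ, Real.negMulLog ((Measure.conv μ μ).rnDeriv volume x).toReal)
          - (∫ x : ℝ, Real.negMulLog
              ((Measure.conv (Measure.conv μ μ) μ).rnDeriv volume x).toReal)
          - (∫ x : ℝ, Real.negMulLog (μ.rnDeriv volume x).toReal)) := by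
    have e1 : ∫ p, W p ∂P = (2/3) * ((∫ p : ℝ × ℝ × ℝ, Real.log ((Measure.conv μ μ).rnDeriv volume (p.2.1 + p.2.2)).toReal ∂P)
        + (∫ p : ℝ × ℝ × ℝ, Real.log ((Measure.conv μ μ).rnDeriv volume (p.1 + p.2.2)).toReal ∂P)
        + (∫ p : ℝ × ℝ × ℝ, Real.log ((Measure.conv μ μ).rnDeriv volume (p.1 + p.2.1)).toReal ∂P))
        - (1/3) * ((∫ p : ℝ × ℝ × ℝ, Real.log (μ.rnDeriv volume p.1).toReal ∂P)
        + (∫ p : ℝ × ℝ × ℝ, Real.log (μ.rnDeriv volume p.2.1).toReal ∂P)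
        + (∫ p : ℝ × ℝ × ℝ, Real.log (μ.rnDeriv volume p.2.2).toReal ∂P))
        - (∫ p : ℝ × ℝ × ℝ, Real.log ((Measure.conv (Measure.conv μ μ) μ).rnDeriv volume
          (p.1 + p.2.1 + p.2.2)).toReal ∂P) := by
      exact integral_comb P _ _ _ _ _ _ _ A1 A2 A3 A4 A5 A6 A7
    rw [e1, B1, B2, B3, B4, B5, B6, B7, k1, k2, k3]
    ring
  have hEI : Integrable (fun p => Real.exp (W p)) P := by
    refine ⟨(Real.measurable_exp.comp_aemeasurable hWI.aemeasurable).aestronglyMeasurable, ?_⟩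
    rw [hasFiniteIntegral_iff_ofReal (Eventually.of_forall fun p => (Real.exp_pos _).le)]
    exact lt_of_le_of_lt hexp ENNReal.ofReal_lt_top
  have hEle : ∫ p, Real.exp (W p) ∂P ≤ √3 / 2 := by
    rw [integral_eq_lintegral_of_nonneg_ae (Eventually.of_forall fun p => (Real.exp_pos _).le)
      hEI.aestronglyMeasurable]
    exact ENNReal.toReal_le_of_le_ofReal (by positivity) hexp
  have hc : (0:ℝ) < √3 / 2 := by positivity
  have hpt : ∀ p, W p ≤ Real.log (√3 / 2) - 1 + Real.exp (W p) / (√3 / 2) := by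
    intro p
    have h1 := Real.add_one_le_exp (W p - Real.log (√3 / 2))
    rw [Real.exp_sub, Real.exp_log hc] at h1
    linarith
  have hPprob : IsProbabilityMeasure P := by rw [hP]; infer_instance
  have hfinal : ∫ p, W p ∂P ≤ Real.log (√3 / 2) := by
    calc ∫ p, W p ∂P ≤ ∫ p, (Real.log (√3 / 2) - 1 + Real.exp (W p) / (√3 / 2)) ∂P :=
          integral_mono hWI ((integrable_const _).add (hEI.div_const _)) hpt
      _ = Real.log (√3 / 2) - 1 + (∫ p, Real.exp (W p) ∂P) / (√3 / 2) := by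
          rw [integral_add (integrable_const _) (hEI.div_const _), integral_div]
          simp
      _ ≤ Real.log (√3 / 2) - 1 + (√3 / 2) / (√3 / 2) := by gcongr
      _ = Real.log (√3 / 2) := by
          rw [div_self hc.ne']; ring
  have hlog : Real.log (√3 / 2) = -(Real.log (4 / 3) / 2) := by
    rw [Real.log_div (by positivity) (by norm_num), Real.log_sqrt (by norm_num),
      Real.log_div (by norm_num) (by norm_num), show (4:ℝ) = 2 ^ 2 by norm_num, Real.log_pow]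
    push_cast
    ring
  rw [hWint, hlog] at hfinal
  linarith

end Pool.Agent.H.MP_8ae060_pr
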